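import Pool.Agent.Q138.LO.Glue

set_option autoImplicit false

/-!
# Manifolds glued from the exterior of the Borromean rings and three pieces

The exterior `M` of the Borromean rings is bounded by three tori. A closed manifold `Y` is obtained by
gluing to each of them one of the following pieces:

* a solid torus with slope at most `-1`;
* a twisted interval bundle over the Klein bottle, the rational longitude of which has a slope smaller
  than `-1`;
* a Seifert fibred space over the disc with any number `n ≥ 2` of exceptional fibres, for instance the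
  exterior of a torus knot, with a condition on the gluing map;
* any other piece in whose fundamental group every order moves a point by `v` not in the opposite
  direction as by `u`, see below (`WeaklyGood`).

(The Borromean rings are amphichiral, so `-1` can be replaced by `1`.) The theorem: the fundamental
group of `Y` has no nontrivial homomorphism to a left-orderable group. In the starting files
(`BorromeanSurgery`) this is proved for three solid tori; if at least one piece is not a solid torus
and the others have slopes `< -1` then `Y` is toroidal. The surgeries with slopes at most `-1` are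
L-spaces, and so are the manifolds `Y`, by the gluing theorem of Hanselman, Rasmussen and Watson.

At the torus `i`, with meridian `μ` and longitude `λ`, the basis `μ⁻¹`, `λ⁻¹ μ` is identified with
the elements `P.u`, `P.v` of the piece. So `P.v = 1` for the solid torus of slope `-1`; for the solid
torus in which `P.u` and `P.v` are the powers `p`, `q` of the core the slope is `- (p + q) / p`.

The proof is the one for three solid tori; a piece enters only by the directions in which its
peripheral elements move the points of the linear order.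

`Piece`, `Good` are defined in `Pool.Agent.Q138.LO.Piece`, `GlueGroup`, `Filling`, `Filling.piece`,
`Filling.Positive` in `Pool.Agent.Q138.LO.Glue`, `LeftOrderable` in `Pool.Agent.Y479.LS.Aut`.
-/

namespace Pool.Agent.Results.MP_3d425c_gt.BorromeanPieces

open Pool.Agent.Q138.LO Pool.Agent.Y479.LS Pool.Agent.W705.Borr

/-- Wirtinger generators of the standard diagram of the Borromean rings by three round circles
`0, 1, 2`, any two of which meet in one point inside and one point outside the third circle;
circle `i + 2` passes over circle `i` at both crossings.  `arc i false` is the meridian of the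
arc of circle `i` through its outer crossing with circle `i + 1`, and `arc i true` the one of
the arc through its inner crossing with circle `i + 1`. -/
def arc (i : Fin 3) (b : Bool) : FreeGroup (Fin 3 × Bool) := FreeGroup.of (i, b)

/-- The (preferred, 0-framed) longitude of circle `i`, which passes under the inner and then
under the outer arc of circle `i + 2`, with opposite signs. -/
def longitude (i : Fin 3) : FreeGroup (Fin 3 × Bool) :=
  arc (i + 2) true * (arc (i + 2) false)⁻¹

/-- The Wirtinger relators of the six crossings. -/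
def wirtinger : Set (FreeGroup (Fin 3 × Bool)) :=
  {w | ∃ i : Fin 3,
    w = (arc (i + 2) true)⁻¹ * arc i false * arc (i + 2) true * (arc i true)⁻¹ ∨
    w = arc (i + 2) false * arc i true * (arc (i + 2) false)⁻¹ * (arc i false)⁻¹}

/-- The first element `μ⁻¹` of the basis of the fundamental group of the boundary torus `i`. -/
def U (i : Fin 3) : FreeGroup (Fin 3 × Bool) := (arc i false)⁻¹

/-- The second element `λ⁻¹ μ` of the basis. -/
def V (i : Fin 3) : FreeGroup (Fin 3 × Bool) := (longitude i)⁻¹ * arc i false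

/-- The fundamental group of the closed manifold obtained by gluing the piece `P i` to the boundary
torus `i` of the exterior of the Borromean rings. -/
abbrev Grp (P : Fin 3 → Piece) : Type := GlueGroup wirtinger P U V

/-- In each action on a linear order `v` does not move a point down which is moved up by `u`, and
does not move a point up which is moved down by `u`; the points fixed by `u` are fixed by `K`. -/
def WeaklyGood {K : Type} [Group K] (u v : K) : Prop :=
  ∀ (X : Type) [LinearOrder X] (φ : K →* (X ≃o X)) (x : X),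
    (x < φ u x → x ≤ φ v x) ∧ (φ u x < x → φ v x ≤ x) ∧ (φ u x = x → ∀ k, φ k x = x)

/-- The pieces that may be glued in. -/
def Allowed (P : Piece) : Prop :=
  (∃ F : Filling, F.Positive ∧ P = F.piece) ∨
  P = ⟨Multiplicative ℤ, Multiplicative.ofAdd (1 : ℤ), 1⟩ ∨ WeaklyGood P.u P.v

theorem weaklyGood_of_good {K : Type} [Group K] {u v : K} (h : Good u v) : WeaklyGood u v := by
  intro X _ φ x
  obtain ⟨h1, h2, h3⟩ := h X φ x
  exact ⟨fun h => h2.mp h.le, fun h => h1.mp h.le, h3⟩

theorem weaklyGood_one : WeaklyGood (Multiplicative.ofAdd (1 : ℤ)) (1 : Multiplicative ℤ) := by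
  intro X _ φ x
  have h1 : φ 1 = 1 := MonoidHom.map_one φ
  rw [h1]
  refine ⟨fun _ => le_rfl, fun _ => le_rfl, fun h => ?_⟩
  refine fix_of_gen φ x {Multiplicative.ofAdd (1 : ℤ)} ?_ ?_
  · rw [Subgroup.eq_top_iff']
    intro k
    rw [Subgroup.mem_closure_singleton]
    exact ⟨Multiplicative.toAdd k, by rw [← ofAdd_zsmul]; simp⟩
  · intro s hs
    rw [Set.mem_singleton_iff.mp hs]; exact h

theorem Allowed.weaklyGood {P : Piece} (h : Allowed P) : WeaklyGood P.u P.v := by
  rcases h with ⟨F, hF, h⟩ | h | h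
  · rw [h]; exact weaklyGood_of_good hF.good
  · rw [h]; exact weaklyGood_one
  · exact h

/-- The property of the peripheral pair, after conjugation. -/
theorem dom_of {X : Type} [CompleteLinearOrder X] {f g u l w : X ≃o X}
    (hf : f = w * u⁻¹ * w⁻¹) (hg : g = w * (l⁻¹ * u) * w⁻¹) (hc : u⁻¹ * l = l * u⁻¹)
    (h : ∀ x : X, (x < f x → x ≤ g x) ∧ (f x < x → g x ≤ x) ∧ (f x = x → g x = x)) :
    Dom (u⁻¹ : X ≃o X) l := by
  have ef : ∀ p, f (w p) = w (u⁻¹ p) := by
    intro p
    rw [hf, mul_ap, mul_ap, inv_self']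
  have eg : ∀ p, g (w p) = w (l⁻¹ (u p)) := by
    intro p
    rw [hg, mul_ap, mul_ap, inv_self', mul_ap]
  refine ⟨?_, ?_, ?_, ?_⟩
  · intro v
    rw [← mul_ap, ← mul_ap, hc]
  · intro v hv
    have h1 := (h (w v)).1 (by rw [ef]; exact w.strictMono hv)
    rw [eg, w.le_iff_le] at h1
    have h2 := l.monotone h1
    rw [self_inv'] at h2
    have h3 := (u⁻¹ : X ≃o X).monotone h2
    rwa [inv_self'] at h3
  · intro v hv
    have h1 := (h (w v)).2.1 (by rw [ef]; exact w.strictMono hv)
    rw [eg, w.le_iff_le] at h1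
    have h2 := l.monotone h1
    rw [self_inv'] at h2
    have h3 := (u⁻¹ : X ≃o X).monotone h2
    rwa [inv_self'] at h3
  · intro v hv
    have h1 := (h (w v)).2.2 (by rw [ef, hv])
    rw [eg, w.injective.eq_iff] at h1
    have h2 := congrArg l h1
    rw [self_inv'] at h2
    have h3 : u v = v := by
      have := congrArg u hv
      rwa [self_inv', eq_comm] at this
    rw [← h2, h3]

/-- **Borromean rings with pieces.** -/
theorem result (P : Fin 3 → Piece) (hP : ∀ i, Allowed (P i)) :
    (∀ (H : Type) [Group H], LeftOrderable H → ∀ (f : Grp P →* H) g, f g = 1) ∧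
      ¬ LeftOrderable (Grp P) := by
  refine glue_trivial
    (fun _ X _ f g => ∀ x : X, (x < f x → x ≤ g x) ∧ (f x < x → g x ≤ x) ∧ (f x = x → g x = x))
    (fun i X _ φ x => ?_) (fun i X _ φ x h _ => ((hP i).weaklyGood X φ x).2.2 h) ?_
  · obtain ⟨h1, h2, h3⟩ := (hP i).weaklyGood X φ x
    exact ⟨h1, h2, fun h => h3 h _⟩
  intro X _ β hrel hQ
  set m : Fin 3 → Bool → (X ≃o X) := fun i b => β (arc i b) with hm
  have e1 : ∀ i, (m (i + 2) true)⁻¹ * m i false * m (i + 2) true * (m i true)⁻¹ = 1 := by
    intro i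
    have := hrel _ ⟨i, Or.inl rfl⟩
    simpa only [map_mul, map_inv] using this
  have e2 : ∀ i, m (i + 2) false * m i true * (m (i + 2) false)⁻¹ * (m i false)⁻¹ = 1 := by
    intro i
    have := hrel _ ⟨i, Or.inr rfl⟩
    simpa only [map_mul, map_inv] using this
  have hU : ∀ i, β (U i) = (m i false)⁻¹ := fun i => by
    unfold U; rw [map_inv]
  have hV : ∀ i, β (V i) = (m (i + 2) true * (m (i + 2) false)⁻¹)⁻¹ * m i false := fun i => by
    unfold V longitude; rw [map_mul, map_inv, map_mul, map_inv]
  set x := m 0 true with hx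
  set y := m 1 true with hy
  set z := m 2 true with hz
  have o0 : m 0 false = z * x * z⁻¹ := by
    have := e1 0
    have h2 : z⁻¹ * m 0 false * z = x := by
      rw [← mul_inv_eq_one]; exact this
    rw [← h2]; group
  have o1 : m 1 false = x * y * x⁻¹ := by
    have := e1 1
    have h2 : x⁻¹ * m 1 false * x = y := by
      rw [← mul_inv_eq_one]; exact this
    rw [← h2]; group
  have o2 : m 2 false = y * z * y⁻¹ := by
    have := e1 2
    have h2 : y⁻¹ * m 2 false * y = z := by
      rw [← mul_inv_eq_one]; exact this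
    rw [← h2]; group
  have c0 : (y * z * y⁻¹) * x * (y * z * y⁻¹)⁻¹ = z * x * z⁻¹ := by
    have h1 : m 2 false * m 0 true * (m 2 false)⁻¹ = m 0 false := by
      rw [← mul_inv_eq_one]; exact e2 0
    rwa [o0, o2] at h1
  have c1 : (z * x * z⁻¹) * y * (z * x * z⁻¹)⁻¹ = x * y * x⁻¹ := by
    have h1 : m 0 false * m 1 true * (m 0 false)⁻¹ = m 1 false := by
      rw [← mul_inv_eq_one]; exact e2 1
    rwa [o0, o1] at h1
  have c2 : (x * y * x⁻¹) * z * (x * y * x⁻¹)⁻¹ = y * z * y⁻¹ := by
    have h1 : m 1 false * m 2 true * (m 1 false)⁻¹ = m 2 false := by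
      rw [← mul_inv_eq_one]; exact e2 2
    rwa [o1, o2] at h1
  have com : ∀ u v w : X ≃o X, (v * w * v⁻¹) * u * (v * w * v⁻¹)⁻¹ = w * u * w⁻¹ →
      u⁻¹ * (v⁻¹⁻¹ * w⁻¹ * v⁻¹ * w⁻¹⁻¹) = (v⁻¹⁻¹ * w⁻¹ * v⁻¹ * w⁻¹⁻¹) * u⁻¹ := by
    intro u v w huv
    have h1 : v * w * v⁻¹ * u = w * u * w⁻¹ * (v * w * v⁻¹) := by
      rw [← huv]; group
    have h2 : (v * w⁻¹ * v⁻¹ * w) * u = u * (v * w⁻¹ * v⁻¹ * w) := by
      have h3 : (v * w * v⁻¹)⁻¹ * (v * w * v⁻¹ * u) * (v * w * v⁻¹)⁻¹ * w
          = (v * w * v⁻¹)⁻¹ * (w * u * w⁻¹ * (v * w * v⁻¹)) * (v * w * v⁻¹)⁻¹ * w := by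
        rw [h1]
      calc (v * w⁻¹ * v⁻¹ * w) * u
          = (v * w * v⁻¹)⁻¹ * (w * u * w⁻¹ * (v * w * v⁻¹)) * (v * w * v⁻¹)⁻¹ * w := by group
        _ = (v * w * v⁻¹)⁻¹ * (v * w * v⁻¹ * u) * (v * w * v⁻¹)⁻¹ * w := h3.symm
        _ = u * (v * w⁻¹ * v⁻¹ * w) := by group
    have h4 : Commute u (v * w⁻¹ * v⁻¹ * w) := h2.symm
    have h5 := h4.inv_left.eq
    simpa using h5
  -- the dominance property of the three pairs
  have d0 : Dom (x⁻¹ : X ≃o X) (y⁻¹⁻¹ * z⁻¹ * y⁻¹ * z⁻¹⁻¹) := by
    refine dom_of (w := z) (f := β (U 0)) (g := β (V 0)) ?_ ?_ (com x y z c0) (hQ 0)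
    · rw [hU, o0]; group
    · rw [hV, show m ((0 : Fin 3) + 2) true = z from rfl,
        show m ((0 : Fin 3) + 2) false = m 2 false from rfl, o2, o0]; group
  have d1 : Dom (y⁻¹ : X ≃o X) (z⁻¹⁻¹ * x⁻¹ * z⁻¹ * x⁻¹⁻¹) := by
    refine dom_of (w := x) (f := β (U 1)) (g := β (V 1)) ?_ ?_ (com y z x c1) (hQ 1)
    · rw [hU, o1]; group
    · rw [hV, show m ((1 : Fin 3) + 2) true = x from rfl,
        show m ((1 : Fin 3) + 2) false = m 0 false from rfl, o0, o1]; group
  have d2 : Dom (z⁻¹ : X ≃o X) (x⁻¹⁻¹ * y⁻¹ * x⁻¹ * y⁻¹⁻¹) := by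
    refine dom_of (w := y) (f := β (U 2)) (g := β (V 2)) ?_ ?_ (com z x y c2) (hQ 2)
    · rw [hU, o2]; group
    · rw [hV, show m ((2 : Fin 3) + 2) true = y from rfl,
        show m ((2 : Fin 3) + 2) false = m 1 false from rfl, o1, o2]; group
  have sys : Sys (x⁻¹ : X ≃o X) y⁻¹ z⁻¹ (y⁻¹⁻¹ * z⁻¹ * y⁻¹ * z⁻¹⁻¹) (z⁻¹⁻¹ * x⁻¹ * z⁻¹ * x⁻¹⁻¹)
      (x⁻¹⁻¹ * y⁻¹ * x⁻¹ * y⁻¹⁻¹) := by
    refine ⟨d0, d1, d2, ?_, ?_, ?_⟩
    · intro v
      rw [← mul_ap, ← mul_ap, ← mul_ap]
      congr 1; group
    · intro v
      rw [← mul_ap, ← mul_ap, ← mul_ap]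
      congr 1; group
    · intro v
      rw [← mul_ap, ← mul_ap, ← mul_ap]
      congr 1; group
  have inv1 : ∀ g : X ≃o X, (∀ s, (g⁻¹ : X ≃o X) s = s) → g = 1 := by
    intro g hg
    refine DFunLike.ext _ _ fun s => ?_
    have := hg (g s)
    rw [inv_self'] at this
    exact this.symm
  have fx : x = 1 := inv1 x (trivial sys)
  have fy : y = 1 := inv1 y (trivial sys.rot)
  have fz : z = 1 := inv1 z (trivial sys.rot.rot)
  have gens : ∀ (i : Fin 3) (b : Bool), m i b = 1 := by
    intro i b
    fin_cases i <;> cases b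
    · show m 0 false = 1
      rw [o0, fx]; group
    · exact fx
    · show m 1 false = 1
      rw [o1, fy]; group
    · exact fy
    · show m 2 false = 1
      rw [o2, fz]; group
    · exact fz
  rintro s ⟨i, b⟩
  have := gens i b
  show β (arc i b) s = s
  rw [show β (arc i b) = 1 from this]
  rfl

end Pool.Agent.Results.MP_3d425c_gt.BorromeanPieces
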