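import Pool.Agent.Q138.LO.Four

set_option autoImplicit false

/-!
# Manifolds glued from the exterior of the hyperbolic 4-chain link and four pieces

## The link

Four round circles `0, 1, 2, 3` in the plane, in clockwise cyclic order around the origin, each
oriented clockwise, such that circle `i` meets circle `i + 1` (mod 4) in two points (the outer
and the inner crossing) and no others.  The two crossings of circles `i, i + 1` have the same
sign: it is negative for `i = 0, 1, 3` (at the outer crossing `i + 1` passes over `i`, at the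
inner crossing `i` passes over `i + 1`) and positive for `i = 2` (at the outer crossing `2`
passes over `3`, at the inner crossing `3` passes over `2`).  Up to mirror image this is the
minimally twisted hyperbolic 4-chain link `8^4_2`, the link `C(4,-1)` of Neumann and Reid.

`o i` and `n i` are the meridians of the outer and of the inner arc of circle `i`.

## The theorem

A closed manifold `Y` is obtained by gluing to each of the four boundary tori of the exterior `M` of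
the link a solid torus, a twisted interval bundle over the Klein bottle, a Seifert fibred space over
the disc with any number of exceptional fibres (for instance the exterior of a torus knot), or any
other manifold `P` with torus boundary such that the orders on `P` move certain peripheral elements
in the same direction. Let `μ`, `λ` be the meridian and the longitude of a component. If in all
actions of the fundamental groups of the pieces on linear orders

* `μ * λ⁻¹` (components 0, 2) moves no point in the direction opposite to `μ`,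
* `λ` (components 1, 3) moves each point in the same direction as `μ`,

and one of the four alternatives `Alternative` holds, then the fundamental group of `Y` has no
nontrivial homomorphism to a left-orderable group. For solid tori of slopes `r 0, r 1, r 2, r 3` the
conditions are `r 0, r 2 ≥ -1`, `r 1, r 3 < 0`, and one of

* `r 0, r 2 ≥ 0`;
* `r 1 ≥ -1`, `r 0 ≥ - a / (a + b)` and `r 2 ≥ a / b` for some `a ≥ 0`, `b ≥ 1`;
* `r 1, r 3 ≥ -1`;
* `r 1 ≥ -1`, `r 2 ≥ n - 2`, `r 3 ≥ -n` for some `n ≥ 2`;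

for four solid tori this is a part of the starting result `FourChainLink`. If one of the pieces is
not a solid torus then `Y` is in general toroidal.

`Piece`, `KleinGroup`, `kx`, `ky` are defined in `Pool.Agent.Q138.LO.Piece`, `SeifGroup`, `sc`, `sh`,
`InCone` in `Pool.Agent.Q138.LO.Seif`, `GlueGroup` in `Pool.Agent.Q138.LO.Glue`, `Weak`, `Strict`,
`Mark` in `Pool.Agent.Q138.LO.Mark`, `LeftOrderable` in `Pool.Agent.Y479.LS.Aut`.
-/

namespace Pool.Agent.Results.MP_3d425c_gt.FourChainLinkPieces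

open Pool.Agent.Q138.LO Pool.Agent.Q138.LO.Four Pool.Agent.Y479.LS

/-- Meridian of the outer arc of circle `i`. -/
def o (i : Fin 4) : FreeGroup (Fin 4 × Bool) := FreeGroup.of (i, false)

/-- Meridian of the inner arc of circle `i`. -/
def n (i : Fin 4) : FreeGroup (Fin 4 × Bool) := FreeGroup.of (i, true)

/-- The Wirtinger relator of a crossing of sign `ε` with over arc `c`, incoming under arc `a`
and outgoing under arc `b`. -/
def crossing (ε : ℤ) (c a b : FreeGroup (Fin 4 × Bool)) : FreeGroup (Fin 4 × Bool) :=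
  c ^ (-ε) * a * c ^ ε * b⁻¹

/-- The Wirtinger relators of the 8 crossings: outer and inner crossing of the circles
`0, 1`, of `1, 2`, of `2, 3` and of `3, 0`. -/
def crossings : Set (FreeGroup (Fin 4 × Bool)) :=
  {crossing (-1) (o 1) (o 0) (n 0), crossing (-1) (n 0) (n 1) (o 1),
    crossing (-1) (o 2) (o 1) (n 1), crossing (-1) (n 1) (n 2) (o 2),
    crossing 1 (o 2) (n 3) (o 3), crossing 1 (n 3) (o 2) (n 2),
    crossing (-1) (o 0) (o 3) (n 3), crossing (-1) (n 3) (n 0) (o 0)}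

/-- The (preferred, 0-framed) longitude of circle `i` that starts on the outer arc: the product
of `c ^ ε` over the two crossings where the circle passes under. -/
def longitude : Fin 4 → FreeGroup (Fin 4 × Bool) :=
  ![(o 1)⁻¹ * (n 3)⁻¹, (o 2)⁻¹ * (n 0)⁻¹, n 3 * (n 1)⁻¹, (o 0)⁻¹ * o 2]

/-- The fundamental group of the closed manifold obtained by gluing the piece `P i` to the boundary
torus `i` of the exterior of the link; the meridian and the longitude are identified with `(P i).u`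
and `(P i).v`. -/
abbrev Grp (P : Fin 4 → Piece) : Type := GlueGroup crossings P o longitude

/-- `u ^ a * v ^ b` moves no point in the direction opposite to `u`. -/
def IsWeak (P : Piece) (a b : ℤ) : Prop :=
  (∃ F : Mark, F.Ok ∧ F.NonNeg a b ∧ P = F.piece) ∨ Weak P a b

/-- `u ^ a * v ^ b` moves the points that are moved by `u`, in the same direction. -/
def IsStrict (P : Piece) (a b : ℤ) : Prop :=
  (∃ F : Mark, F.Ok ∧ F.Pos a b ∧ P = F.piece) ∨ Strict P a b

/-- The common conditions. -/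
structure Common (P : Fin 4 → Piece) : Prop where
  zero : IsWeak (P 0) 1 (-1)
  one : IsStrict (P 1) 0 1
  two : IsWeak (P 2) 1 (-1)
  three : IsStrict (P 3) 0 1

/-- The four alternatives. -/
inductive Alternative (P : Fin 4 → Piece) : Prop
  | a (h0 : IsWeak (P 0) 0 (-1)) (h2 : IsWeak (P 2) 0 (-1))
  | b (a b : ℤ) (ha : 0 ≤ a) (hb : 1 ≤ b) (h0 : IsWeak (P 0) a (-(a + b)))
      (h1 : IsWeak (P 1) 1 (-1)) (h2 : IsWeak (P 2) (-a) (-b))
  | c (h1 : IsWeak (P 1) 1 (-1)) (h3 : IsWeak (P 3) 1 (-1))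
  | d (k : ℤ) (hk : 2 ≤ k) (h1 : IsWeak (P 1) 1 (-1)) (h2 : IsWeak (P 2) (-(k - 2)) (-1))
      (h3 : IsWeak (P 3) k (-1))

theorem IsWeak.weak {P : Piece} {a b : ℤ} (h : IsWeak P a b) : Weak P a b := by
  rcases h with ⟨F, h0, h1, rfl⟩ | h
  · exact Mark.weak h0 h1
  · exact h

theorem IsStrict.strict {P : Piece} {a b : ℤ} (h : IsStrict P a b) : Strict P a b := by
  rcases h with ⟨F, h0, h1, rfl⟩ | h
  · exact Mark.strict h0 h1
  · exact h

/-- What is known about the peripheral elements of a piece. -/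
def Q (P : Fin 4 → Piece) (i : Fin 4) (X : Type) [LinearOrder X] (f g : X ≃o X) : Prop :=
  (∀ a b, Weak (P i) a b → WX X f (f ^ a * g ^ b)) ∧
    (∀ a b, Strict (P i) a b → VX X f (f ^ a * g ^ b))

theorem q_of (P : Fin 4 → Piece) (i : Fin 4) (X : Type) [LinearOrder X]
    (φ : (P i).K →* (X ≃o X)) : Q P i X (φ (P i).u) (φ (P i).v) := by
  refine ⟨fun a b h x => ?_, fun a b h x => ?_⟩
  · obtain ⟨h1, h2, h3⟩ := h X φ x
    rw [map_mul, map_zpow, map_zpow] at h1 h2
    refine ⟨h1, h2, fun h => ?_⟩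
    have := h3 h ((P i).u ^ a * (P i).v ^ b)
    rwa [map_mul, map_zpow, map_zpow] at this
  · obtain ⟨h1, h2, h3⟩ := h X φ x
    rw [map_mul, map_zpow, map_zpow] at h1 h2
    refine ⟨h1, h2, fun h => ?_⟩
    have := h3 h ((P i).u ^ a * (P i).v ^ b)
    rwa [map_mul, map_zpow, map_zpow] at this

theorem mono_aut {X : Type} [LinearOrder X] : Pool.Agent.TH744.LS.Mono (X ≃o X) X :=
  fun g _ _ h => g.lt_iff_lt.mpr h

theorem wx_inv {X : Type} [LinearOrder X] {μ w : X ≃o X} (h : WX X μ w) : WX X μ⁻¹ w⁻¹ := by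
  intro v
  obtain ⟨h1, h2, h3⟩ := h v
  have hm := mono_aut (X := X)
  rw [inv_lt_iff hm, inv_gt_iff hm]
  refine ⟨fun h => ?_, fun h => ?_, fun h => ?_⟩
  · rw [← hm.le w, smul_inv_smul]; exact h2 h
  · rw [← hm.le w, smul_inv_smul]; exact h1 h
  · have := Pool.Agent.TH744.LS.inv_fix h
    rw [inv_inv] at this
    exact Pool.Agent.TH744.LS.inv_fix (h3 this)

/-- **The hyperbolic 4-chain link with pieces.** -/
theorem result (P : Fin 4 → Piece) (hP : Common P) (hA : Alternative P) :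
    (∀ (H : Type) [Group H], LeftOrderable H → ∀ (f : Grp P →* H) g, f g = 1) ∧
      ¬ LeftOrderable (Grp P) := by
  refine glue_trivial (Q P) (fun i X _ φ => q_of P i X φ) (fun i X _ φ x h _ => ?_) ?_
  · fin_cases i
    · exact (hP.zero.weak X φ x).2.2 h
    · exact (hP.one.strict X φ x).2.2 h
    · exact (hP.two.weak X φ x).2.2 h
    · exact (hP.three.strict X φ x).2.2 h
  intro X _ φ hrel hQ
  have crs : ∀ (ε : ℤ) (c a b : FreeGroup (Fin 4 × Bool)), crossing ε c a b ∈ crossings →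
      φ b = φ c ^ (-ε) * φ a * φ c ^ ε := by
    intro ε c a b hw
    have h1 := hrel _ hw
    simp only [crossing, map_mul, map_inv, map_zpow] at h1
    exact (mul_inv_eq_one.mp h1).symm
  have r1 := crs (-1) (o 1) (o 0) (n 0) (by simp [crossings])
  have r2 := crs (-1) (n 0) (n 1) (o 1) (by simp [crossings])
  have r3 := crs (-1) (o 2) (o 1) (n 1) (by simp [crossings])
  have r4 := crs (-1) (n 1) (n 2) (o 2) (by simp [crossings])
  have r5 := crs 1 (o 2) (n 3) (o 3) (by simp [crossings])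
  have r6 := crs 1 (n 3) (o 2) (n 2) (by simp [crossings])
  have r7 := crs (-1) (o 0) (o 3) (n 3) (by simp [crossings])
  have r8 := crs (-1) (n 3) (n 0) (o 0) (by simp [crossings])
  have q0 : Q P 0 X (φ (o 0)) ((φ (o 1))⁻¹ * (φ (n 3))⁻¹) := by
    have h1 : Q P 0 X (φ (o 0)) (φ ((o 1)⁻¹ * (n 3)⁻¹)) := hQ 0
    simpa only [map_mul, map_inv] using h1
  have q1 : Q P 1 X (φ (o 1)) ((φ (o 2))⁻¹ * (φ (n 0))⁻¹) := by
    have h1 : Q P 1 X (φ (o 1)) (φ ((o 2)⁻¹ * (n 0)⁻¹)) := hQ 1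
    simpa only [map_mul, map_inv] using h1
  have q2 : Q P 2 X (φ (o 2)) (φ (n 3) * (φ (n 1))⁻¹) := by
    have h1 : Q P 2 X (φ (o 2)) (φ (n 3 * (n 1)⁻¹)) := hQ 2
    simpa only [map_mul, map_inv] using h1
  have q3 : Q P 3 X (φ (o 3)) ((φ (o 0))⁻¹ * φ (o 2)) := by
    have h1 : Q P 3 X (φ (o 3)) (φ ((o 0)⁻¹ * o 2)) := hQ 3
    simpa only [map_mul, map_inv] using h1
  simp only [neg_neg, zpow_one, zpow_neg] at r1 r2 r3 r4 r5 r6 r7 r8
  have fin : φ (o 0) = 1 ∧ φ (o 1) = 1 ∧ φ (o 2) = 1 ∧ φ (o 3) = 1 := by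
    clear hQ hrel crs
    generalize φ (o 0) = a0 at *
    generalize φ (o 1) = a1 at *
    generalize φ (o 2) = a2 at *
    generalize φ (o 3) = a3 at *
    generalize φ (n 0) = b0 at *
    generalize φ (n 1) = b1 at *
    generalize φ (n 2) = b2 at *
    generalize φ (n 3) = b3 at *
    have comm : ∀ a w : X ≃o X, a = w * a * w⁻¹ → Commute a w := by
      intro a w h
      show a * w = w * a
      calc a * w = w * a * w⁻¹ * w := by rw [← h]
        _ = w * a := by group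
    -- the longitude of circle 1 is the inverse of `x y`
    have c1 : Commute a1 (b0 * a2) := by
      refine comm _ _ ?_
      calc a1 = b0 * b1 * b0⁻¹ := r2
        _ = b0 * (a2 * a1 * a2⁻¹) * b0⁻¹ := by rw [← r3]
        _ = b0 * a2 * a1 * (b0 * a2)⁻¹ := by group
    have k1 : b0 * a2 = a0 * (a1⁻¹ * a2 * a1) := by
      calc b0 * a2 = a1⁻¹ * (a1 * (b0 * a2)) := by group
        _ = a1⁻¹ * ((b0 * a2) * a1) := by rw [c1.eq]
        _ = a0 * (a1⁻¹ * a2 * a1) := by rw [r1]; group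
    -- the longitude of circle 2
    have c2 : Commute a2 (a3 * a1⁻¹) := by
      have h1 : Commute a2 (b1 * b3⁻¹) := by
        refine comm _ _ ?_
        calc a2 = b1 * b2 * b1⁻¹ := r4
          _ = b1 * (b3⁻¹ * a2 * b3) * b1⁻¹ := by rw [← r6]
          _ = b1 * b3⁻¹ * a2 * (b1 * b3⁻¹)⁻¹ := by group
      have h2 : b1 * b3⁻¹ = a2 * (a3 * a1⁻¹)⁻¹ * a2⁻¹ := by
        have h3 : b3 = a2 * a3 * a2⁻¹ := by rw [r5]; group
        rw [h3, r3]; group
      have h4 : Commute a2 (a2 * (a3 * a1⁻¹)⁻¹ * a2⁻¹) := by rwa [h2] at h1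
      have h5 : Commute a2 (a3 * a1⁻¹)⁻¹ := by
        have h6 := ((Commute.refl a2).inv_right.mul_right h4).mul_right (Commute.refl a2)
        have h7 : a2⁻¹ * (a2 * (a3 * a1⁻¹)⁻¹ * a2⁻¹) * a2 = (a3 * a1⁻¹)⁻¹ := by group
        rwa [h7] at h6
      have := h5.inv_right
      rwa [inv_inv] at this
    have k2 : b3 * b1⁻¹ = a3 * a1⁻¹ := by
      have h3 : b3 = a2 * a3 * a2⁻¹ := by rw [r5]; group
      calc b3 * b1⁻¹ = a2 * (a3 * a1⁻¹) * a2⁻¹ := by rw [h3, r3]; group
        _ = (a3 * a1⁻¹) * a2 * a2⁻¹ := by rw [c2.eq]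
        _ = a3 * a1⁻¹ := by group
    -- the longitude of circle 3
    have c3 : Commute a3 (a2⁻¹ * a0) := by
      refine comm _ _ ?_
      calc a3 = a2⁻¹ * b3 * a2 := r5
        _ = a2⁻¹ * (a0 * a3 * a0⁻¹) * a2 := by rw [← r7]
        _ = a2⁻¹ * a0 * a3 * (a2⁻¹ * a0)⁻¹ := by group
    -- the longitude of circle 0
    have c0 : Commute a0 (b3 * a1) := by
      refine comm _ _ ?_
      calc a0 = b3 * b0 * b3⁻¹ := r8
        _ = b3 * (a1 * a0 * a1⁻¹) * b3⁻¹ := by rw [← r1]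
        _ = b3 * a1 * a0 * (b3 * a1)⁻¹ := by group
    -- the relations in terms of `x = a0, T = a1⁻¹, y = a1⁻¹ a2 a1, S = a3⁻¹`
    have cT : Commute a1⁻¹ (a0 * (a1⁻¹ * a2 * a1)) := by rw [← k1]; exact c1.inv_left
    have kx : a1⁻¹ * a2 * a1 * a1⁻¹ * (a1⁻¹ * a2 * a1)⁻¹ * a3⁻¹ = a1⁻¹ * b3⁻¹ := by
      have h1 : a1⁻¹ * a2 * a1 * a1⁻¹ * (a1⁻¹ * a2 * a1)⁻¹ = a0⁻¹ * a1⁻¹ * a0 := by
        calc a1⁻¹ * a2 * a1 * a1⁻¹ * (a1⁻¹ * a2 * a1)⁻¹
            = a0⁻¹ * ((a0 * (a1⁻¹ * a2 * a1)) * a1⁻¹) * (a1⁻¹ * a2 * a1)⁻¹ := by group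
          _ = a0⁻¹ * (a1⁻¹ * (a0 * (a1⁻¹ * a2 * a1))) * (a1⁻¹ * a2 * a1)⁻¹ := by rw [cT.eq]
          _ = a0⁻¹ * a1⁻¹ * a0 := by group
      have h2 : (b3 * a1)⁻¹ = a1⁻¹ * b3⁻¹ := by group
      have h3 : Commute a0 (a1⁻¹ * b3⁻¹) := by rw [← h2]; exact c0.inv_right
      calc a1⁻¹ * a2 * a1 * a1⁻¹ * (a1⁻¹ * a2 * a1)⁻¹ * a3⁻¹
          = a0⁻¹ * a1⁻¹ * a0 * a3⁻¹ := by rw [h1]
        _ = a0⁻¹ * ((a1⁻¹ * b3⁻¹) * a0) := by rw [r7]; group
        _ = a0⁻¹ * (a0 * (a1⁻¹ * b3⁻¹)) := by rw [h3.eq]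
        _ = a1⁻¹ * b3⁻¹ := by group
    have ky : a1⁻¹ * a3⁻¹⁻¹ = a1⁻¹ * (a3 * a1⁻¹) * a1⁻¹⁻¹ := by group
    have kS : a1⁻¹⁻¹ * (a1⁻¹ * a2 * a1)⁻¹ * a1⁻¹ * a0 = a2⁻¹ * a0 := by group
    have kyy : a1⁻¹ * a2 * a1 = a1⁻¹ * a2 * a1⁻¹⁻¹ := by group
    have L : Lnk a0 a1⁻¹ (a1⁻¹ * a2 * a1) a3⁻¹ := by
      refine ⟨cT.eq, ?_, ?_, ?_, by simp, by simp, by simp, by simp⟩
      · rw [kx]
        have h2 : (b3 * a1)⁻¹ = a1⁻¹ * b3⁻¹ := by group
        rw [← h2]; exact c0.inv_right.eq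
      · rw [ky, kyy]; exact Pool.Agent.TH744.LS.conj_comm' a1⁻¹ c2
      · rw [kS]; exact c3.inv_left.eq
    have hm := mono_aut (X := X)
    -- component 0
    have w0 : ∀ a b : ℤ, IsWeak (P 0) a b → WX X a0
        (a0 ^ a * (a1⁻¹ * a2 * a1 * a1⁻¹ * (a1⁻¹ * a2 * a1)⁻¹ * a3⁻¹) ^ b) := by
      intro a b h; rw [kx]; exact q0.1 a b h.weak
    -- component 1
    have h12 : a2⁻¹ * b0⁻¹ = (a0 * (a1⁻¹ * a2 * a1))⁻¹ := by rw [← k1]; group
    have cz : Commute a1 ((a0 * (a1⁻¹ * a2 * a1))⁻¹) := by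
      have := cT.inv_inv; rwa [inv_inv] at this
    have w1 : ∀ a b : ℤ, IsWeak (P 1) a b → WX X a1⁻¹
        (a1⁻¹ ^ a * (a0 * (a1⁻¹ * a2 * a1)) ^ b) := by
      intro a b h
      have h1 := q1.1 a b h.weak
      rw [h12] at h1
      have h2 := wx_inv h1
      have e : (a1 ^ a * ((a0 * (a1⁻¹ * a2 * a1))⁻¹) ^ b)⁻¹ =
          a1⁻¹ ^ a * (a0 * (a1⁻¹ * a2 * a1)) ^ b := by
        rw [(cz.zpow_zpow a b).eq, mul_inv_rev, inv_zpow (a0 * (a1⁻¹ * a2 * a1)), inv_inv,
          inv_zpow a1]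
      rwa [e] at h2
    have v1 : VX X a1⁻¹ (a0 * (a1⁻¹ * a2 * a1)) := by
      have h1 := q1.2 0 1 hP.one.strict
      rw [h12, zpow_zero, one_mul, zpow_one] at h1
      have h2 := h1.inv hm
      rwa [inv_inv] at h2
    -- component 2
    have w2 : ∀ a b : ℤ, IsWeak (P 2) a b → WX X (a1⁻¹ * a2 * a1)
        ((a1⁻¹ * a2 * a1) ^ a * (a1⁻¹ * a3⁻¹⁻¹) ^ b) := by
      intro a b h
      have h1 := q2.1 a b h.weak
      rw [k2] at h1
      have h2 := h1.conj hm a1⁻¹
      have e : a1⁻¹ * (a2 ^ a * (a3 * a1⁻¹) ^ b) * a1⁻¹⁻¹ =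
          (a1⁻¹ * a2 * a1) ^ a * (a1⁻¹ * a3⁻¹⁻¹) ^ b := by
        rw [ky, kyy, conj_zpow, conj_zpow]; group
      rw [e, ← kyy] at h2
      exact h2
    -- component 3
    have h32 : a0⁻¹ * a2 = (a1⁻¹⁻¹ * (a1⁻¹ * a2 * a1)⁻¹ * a1⁻¹ * a0)⁻¹ := by group
    have cD : Commute a3 ((a1⁻¹⁻¹ * (a1⁻¹ * a2 * a1)⁻¹ * a1⁻¹ * a0)⁻¹) := by
      rw [kS]; exact c3.inv_right
    have w3 : ∀ a b : ℤ, IsWeak (P 3) a b → WX X a3⁻¹
        (a3⁻¹ ^ a * (a1⁻¹⁻¹ * (a1⁻¹ * a2 * a1)⁻¹ * a1⁻¹ * a0) ^ b) := by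
      intro a b h
      have h1 := q3.1 a b h.weak
      rw [h32] at h1
      have h2 := wx_inv h1
      have e : (a3 ^ a * ((a1⁻¹⁻¹ * (a1⁻¹ * a2 * a1)⁻¹ * a1⁻¹ * a0)⁻¹) ^ b)⁻¹ =
          a3⁻¹ ^ a * (a1⁻¹⁻¹ * (a1⁻¹ * a2 * a1)⁻¹ * a1⁻¹ * a0) ^ b := by
        rw [(cD.zpow_zpow a b).eq, mul_inv_rev,
          inv_zpow (a1⁻¹⁻¹ * (a1⁻¹ * a2 * a1)⁻¹ * a1⁻¹ * a0), inv_inv, inv_zpow a3]
      rwa [e] at h2
    have v3 : VX X a3⁻¹ (a1⁻¹⁻¹ * (a1⁻¹ * a2 * a1)⁻¹ * a1⁻¹ * a0) := by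
      have h1 := q3.2 0 1 hP.three.strict
      rw [h32, zpow_zero, one_mul, zpow_one] at h1
      have h2 := h1.inv hm
      rwa [inv_inv] at h2
    have R : Conds (WX X) (VX X) a0 a1⁻¹ (a1⁻¹ * a2 * a1) a3⁻¹ := by
      refine ⟨L, ?_, ?_, v1, v3, ?_⟩
      · have := w0 1 (-1) hP.zero
        rwa [zpow_one, zpow_neg_one] at this
      · have := w2 1 (-1) hP.two
        rwa [zpow_one, zpow_neg_one] at this
      · rcases hA with ⟨h0, h2⟩ | ⟨a, b, ha, hb, h0, h1, h2⟩ | ⟨h1, h3⟩ | ⟨k, hk, h1, h2, h3⟩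
        · refine .a ?_ ?_
          · have := w0 0 (-1) h0
            rwa [zpow_zero, one_mul, zpow_neg_one] at this
          · have := w2 0 (-1) h2
            rwa [zpow_zero, one_mul, zpow_neg_one] at this
        · refine .b a b ha hb (w0 _ _ h0) ?_ (w2 _ _ h2)
          have := w1 1 (-1) h1
          rwa [zpow_one, zpow_neg_one] at this
        · refine .c ?_ ?_
          · have := w1 1 (-1) h1
            rwa [zpow_one, zpow_neg_one] at this
          · have := w3 1 (-1) h3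
            rwa [zpow_one, zpow_neg_one] at this
        · refine .d k hk ?_ ?_ ?_
          · have := w1 1 (-1) h1
            rwa [zpow_one, zpow_neg_one] at this
          · have := w2 (-(k - 2)) (-1) h2
            rwa [zpow_neg_one] at this
          · have := w3 k (-1) h3
            rwa [zpow_neg_one] at this
    have key := fun v => all_fix hm R v
    have one_of : ∀ z : X ≃o X, (∀ v : X, z • v = v) → z = 1 := fun z hz => DFunLike.ext _ _ hz
    have t0 := one_of _ fun v => (key v).1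
    have t1 := one_of _ fun v => (key v).2.1
    have t2 := one_of _ fun v => (key v).2.2.1
    have t3 := one_of _ fun v => (key v).2.2.2
    have u1 : a1 = 1 := by simpa using t1
    refine ⟨t0, u1, ?_, by simpa using t3⟩
    rw [u1] at t2; simpa using t2
  have gens : ∀ g : Fin 4 × Bool, φ (FreeGroup.of g) = 1 := by
    obtain ⟨f0, f1, f2, f3⟩ := fin
    rw [f0, f1] at r1
    rw [f1, f2] at r3
    rw [f0, f3] at r7
    have g0 : φ (n 0) = 1 := by simpa using r1
    have g1 : φ (n 1) = 1 := by simpa using r3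
    have g3 : φ (n 3) = 1 := by simpa using r7
    rw [f2, g3] at r6
    have g2 : φ (n 2) = 1 := by simpa using r6
    rintro ⟨i, b⟩
    fin_cases i <;> cases b
    · exact f0
    · exact g0
    · exact f1
    · exact g1
    · exact f2
    · exact g2
    · exact f3
    · exact g3
  intro x γ
  rw [gens γ]; rfl

end Pool.Agent.Results.MP_3d425c_gt.FourChainLinkPieces
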