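import Pool.Agent.Q138.LO.TanG

set_option autoImplicit false

/-!
# Toroidal manifolds from sums of tangles of opposite sign

Let `T 0, ..., T k` and `T'` be alternating tangle diagrams (`Pool.Agent.Y479.LS.Tangle`; the regions
at the boundary circle are `west`, `east` (white), `north`, `south` (black)). Put `T 0, ..., T k` and
`n` more crossings of the same sign below each other, so that all of them are adjacent to the same
white regions `west` and `east`, and close this sum with the mirror image of `T'`. The diagram is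
neither alternating nor positive in any sense: `T'` has the opposite sign.

In the double branched cover replace the solid torus over each crossing of `T 0, ..., T k, T'` by a
piece (`Pool.Agent.Q138.LO.Piece`): another solid torus, the twisted interval bundle over the Klein
bottle, or a Seifert fibred space over the disc, with conditions on the gluing map. `Grp` is the
fundamental group of the resulting closed manifold; in `T'` the corners are taken before reflection.

A piece is flat if in every action on a linear order `v = w₁⁻¹ w₂` moves no point further than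
`u = b₂⁻¹ b₁`, and steep if `u` moves no point further than `v`. A crossing is flat and steep. A tangle
contains the rational tangle `s / (s m + 1)` if its white graph has a walk of length `m` through flat
pieces from `west` to a region `z`, and there are at least `s` flat pieces between `z` and `east`.

The theorem: let `M = r + 2`, `t = s + 1`, and suppose that three different summands `T i`, `T j`,
`T l`, where `T i` is above or below both others, contain the rational tangles `(M - 1) / M`,
`t / (t M + 1)` and `1 / ((t + 1) M + 1)`, and that `T'` has a walk of length `n + 1` through steep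
pieces from `north` to `south` in its black graph. Then the fundamental group has no nontrivial
homomorphism to a left-orderable group.

The proof. In an action on a linear order at a point which is not fixed by everything, the images of the
point under the white regions of a tangle lie between those under `west` and `east`, and similarly for
the black regions, since around a region with an extremal image the product of the elements `u` (or
`v`) of the pieces is trivial and all of them move the point in the same direction. Blowing up the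
fixed points we get inequalities between commuting-free words in the voltage `g = east` and the
currents `A i` of the summands, namely `((A i ^ m)⁻¹ g) ^ s ≤ A i`, `A i A j A l ≤ g`, and these have
no solution.
-/

namespace Pool.Agent.Results.MP_3d425c_gt.TangleSumsWithPieces

open Pool.Agent.Y479.LS Pool.Agent.Q138.LO Pool.Agent.Q138.LO.Tan

section defs

variable {k : ℕ} (T : Fin (k + 1) → Tangle) (T' : Tangle)

/-- The crossings. -/
abbrev Cr : Type := (Σ i : Fin (k + 1), (T i).C) ⊕ T'.C

/-- `b₂⁻¹ b₁` at a crossing -/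
def bb : Cr T T' → FreeGroup (Sum.Gen T T')
  | .inl ⟨i, c⟩ => (Sum.b T T' i ((T i).b₂ c))⁻¹ * Sum.b T T' i ((T i).b₁ c)
  | .inr c => (Sum.b' T T' (T'.b₂ c))⁻¹ * Sum.b' T T' (T'.b₁ c)

/-- `w₁⁻¹ w₂` at a crossing -/
def ww : Cr T T' → FreeGroup (Sum.Gen T T')
  | .inl ⟨i, c⟩ => (Sum.w T T' i ((T i).w₁ c))⁻¹ * Sum.w T T' i ((T i).w₂ c)
  | .inr c => (Sum.w' T T' (T'.w₁ c))⁻¹ * Sum.w' T T' (T'.w₂ c)

/-- The regions `west` and `east` are common to all tangles; the black regions between consecutive
summands; the `n` extra crossings between the last summand and `south`; base regions. -/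
def base (n : ℕ) : Set (FreeGroup (Sum.Gen T T')) :=
  {r | (∃ i, r = Sum.w T T' i (T i).west * (Sum.w' T T' T'.west)⁻¹) ∨
    (∃ i, r = Sum.w T T' i (T i).east * (Sum.w' T T' T'.east)⁻¹) ∨
    r = Sum.b T T' 0 (T 0).north * (Sum.b' T T' T'.north)⁻¹ ∨
    (∃ i : Fin k, r = Sum.b T T' i.castSucc (T i.castSucc).south *
      (Sum.b T T' i.succ (T i.succ).north)⁻¹) ∨
    r = (Sum.b T T' (Fin.last k) (T (Fin.last k)).south *
      ((Sum.w' T T' T'.west)⁻¹ * Sum.w' T T' T'.east) ^ n) * (Sum.b' T T' T'.south)⁻¹ ∨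
    r = Sum.w' T T' T'.west ∨ r = Sum.b' T T' T'.north}

/-- The fundamental group of the closed manifold. -/
abbrev Grp (n : ℕ) (P : Cr T T' → Piece) : Type := GlueGroup (base T T' n) P (bb T T') (ww T T')

end defs

/-- The tangle with the pieces `P` contains, with the same poles, the rational tangle
`s / (s m + 1)`. -/
def Contains (T : Tangle) (P : T.C → Piece) (m s : ℕ) : Prop :=
  ∃ z, WalkIn (fun c => Flat (P c)) T.w₁ T.w₂ m T.west z ∧
    s ≤ facingIn (fun c => Flat (P c)) T.w₁ T.w₂ (T.starW T.east) z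

section positive

variable {k : ℕ} {T : Fin (k + 1) → Tangle} {T' : Tangle} {n : ℕ}

/-- A solution of the inequalities. -/
structure Data (T : Fin (k + 1) → Tangle) (T' : Tangle) (n : ℕ) (Pi : ∀ i, (T i).C → Piece)
    (P' : T'.C → Piece) {P : Type*} [Group P] [PartialOrder P] (g S : P) (A : Fin (k + 1) → P) :
    Prop where
  cur : ∀ i, 1 < A i
  rat : ∀ i (m s : ℕ), Contains (T i) (Pi i) m s → ((A i ^ m)⁻¹ * g) ^ s ≤ A i
  triple : ∀ i j l, i < j → j < l → A i * A j * A l ≤ S
  walk : ∀ d : ℕ, WalkIn (fun c => Steep (P' c)) T'.b₁ T'.b₂ d T'.north T'.south →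
    S * g ^ n ≤ g ^ d

theorem data {X : Type*} [LinearOrder X] [Nonempty X] {Pi : ∀ i, (T i).C → Piece}
    {P' : T'.C → Piece}
    {w : ∀ i, (T i).W → Aut X} {b : ∀ i, (T i).B → Aut X} {w' : T'.W → Aut X} {b' : T'.B → Aut X}
    (h : ∀ i, SameT (T i) (w i) (b i)) (h' : SameT T' w' b')
    (hK : ∀ i c, Flat (Pi i c) → Dom ((w i ((T i).w₁ c))⁻¹ * w i ((T i).w₂ c))
      ((b i ((T i).b₂ c))⁻¹ * b i ((T i).b₁ c)))
    (hK' : ∀ c, Steep (P' c) → Dom ((b' (T'.b₂ c))⁻¹ * b' (T'.b₁ c))
      ((w' (T'.w₁ c))⁻¹ * w' (T'.w₂ c)))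
    (hw' : w' T'.west = 1)
    (hb' : b' T'.north = 1) (hw : ∀ i, w i (T i).west = w' T'.west)
    (he : ∀ i, w i (T i).east = w' T'.east) (h0 : b 0 (T 0).north = b' T'.north)
    (hi : ∀ i : Fin k, b i.castSucc (T i.castSucc).south = b i.succ (T i.succ).north)
    (hl : b (Fin.last k) (T (Fin.last k)).south * ((w' T'.west)⁻¹ * w' T'.east) ^ n =
      b' T'.south)
    (hpos : ∀ x, x < w' T'.east x) :
    ∃ (g S : Aut X) (A : Fin (k + 1) → Aut X), Data T T' n Pi P' g S A := by
  obtain ⟨B3, B4⟩ := Tan.bounds h' hw' hb' hpos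
  set g := w' T'.east with hg
  set N : Fin (k + 1) → Aut X := fun i => b i (T i).north with hN
  set S : Fin (k + 1) → Aut X := fun i => b i (T i).south with hS
  set A : Fin (k + 1) → Aut X := fun i => (N i)⁻¹ * S i with hA
  have hsh : ∀ i c, ((N i)⁻¹ * b i ((T i).b₂ c))⁻¹ * ((N i)⁻¹ * b i ((T i).b₁ c)) =
      (b i ((T i).b₂ c))⁻¹ * b i ((T i).b₁ c) := by
    intro i c; group
  have hrep : ∀ i, SameT (T i) (w i) (fun v => (N i)⁻¹ * b i v) := by
    intro i c
    show Same (((N i)⁻¹ * b i ((T i).b₂ c))⁻¹ * ((N i)⁻¹ * b i ((T i).b₁ c))) _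
    rw [hsh]
    exact h i c
  have hdom : ∀ i, DomIn (fun c => Flat (Pi i c)) (T i).w₁ (T i).w₂ (T i).b₁ (T i).b₂ (w i)
      (fun v => (N i)⁻¹ * b i v) := by
    intro i
    refine dom_white fun c hc => ?_
    show Dom _ (((N i)⁻¹ * b i ((T i).b₂ c))⁻¹ * ((N i)⁻¹ * b i ((T i).b₁ c)))
    rw [hsh]
    exact hK i c hc
  have hbd : ∀ i, Bounds (w i) (T i).west (T i).east ∧
      Bounds (fun v => (N i)⁻¹ * b i v) (T i).north (T i).south := by
    intro i
    exact Tan.bounds (hrep i) ((hw i).trans hw') (inv_mul_cancel _) (by rw [he i]; exact hpos)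
  have hA1 : ∀ i, 1 < A i := fun i => (hbd i).2.pos _ (T i).black.ne.symm
  have hrat : ∀ i (m s : ℕ), Contains (T i) (Pi i) m s → ((A i ^ m)⁻¹ * g) ^ s ≤ A i := by
    rintro i m s ⟨v, h1, h2⟩
    have := contains_le (T i).white (hrep i).white (hbd i).1 (hbd i).2 (hdom i) h1 h2
    rwa [he i] at this
  have hNS : ∀ i, N i ≤ S i := by
    intro i
    have := mul_le_mul_right (hA1 i).le (N i)
    rwa [mul_one, hA, mul_inv_cancel_left] at this
  have hstack : ∀ j, 1 ≤ N j ∧ ∀ i, i < j → S i ≤ N j := by
    intro j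
    induction j using Fin.induction with
    | zero =>
      refine ⟨?_, fun i hi => absurd hi (Fin.not_lt_zero i)⟩
      exact le_of_eq (h0.trans hb').symm
    | succ j ih =>
      have e1 : N j.succ = S j.castSucc := (hi j).symm
      rw [e1]
      refine ⟨ih.1.trans (hNS _), fun i hij => ?_⟩
      rcases (Fin.le_castSucc_iff.mpr hij).lt_or_eq with h1 | h1
      · exact (ih.2 i h1).trans (hNS _)
      · rw [h1]
  have hlast : ∀ l, S l ≤ S (Fin.last k) := by
    intro l
    rcases (Fin.le_last l).lt_or_eq with h1 | h1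
    · exact ((hstack _).2 l h1).trans (hNS _)
    · rw [h1]
  have hAS : ∀ i, A i ≤ S i := fun i =>
    mul_le_of_le_one_left' (inv_le_one'.mpr (hstack i).1)
  have hAA : ∀ i j, i < j → A j ≤ (S i)⁻¹ * S j := fun i j hij =>
    mul_le_mul_left (inv_le_inv_iff.mpr ((hstack j).2 i hij)) _
  have hpair : ∀ i j, i < j → A i * A j ≤ S j := by
    intro i j hij
    calc A i * A j ≤ S i * ((S i)⁻¹ * S j) := mul_le_mul' (hAS i) (hAA i j hij)
      _ = S j := mul_inv_cancel_left _ _
  rw [hw', inv_one, one_mul] at hl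
  refine ⟨g, S (Fin.last k), A, hA1, hrat, fun i j l hij hjl => ?_, fun d hd => ?_⟩
  · calc A i * A j * A l ≤ S j * ((S j)⁻¹ * S l) := mul_le_mul' (hpair i j hij) (hAA j l hjl)
      _ = S l := mul_inv_cancel_left _ _
      _ ≤ S (Fin.last k) := hlast l
  · have k1 := Tan.walk_le h'.black B3 (dom_black hK') d _ _ hd
    rw [B4.base, inv_one, one_mul, ← hl] at k1
    exact k1

end positive

section actions

variable {k : ℕ} {T : Fin (k + 1) → Tangle} {T' : Tangle} {n : ℕ} {P : Cr T T' → Piece}

theorem same_of {K : Type} [Group K] {u v : K} (h : Good u v) {X : Type} [LinearOrder X]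
    (φ : K →* Aut X) : Same (φ u) (φ v) := fun x =>
  ⟨(h X φ x).1, (h X φ x).2.1⟩

theorem dom_of {K : Type} [Group K] {u v : K} (h : Less u v) {X : Type} [LinearOrder X]
    (φ : K →* Aut X) : Dom (φ v) (φ u) := fun x => h X φ x

/-- the homomorphism from words in the regions -/
abbrev bh (n : ℕ) (P : Cr T T' → Piece) : FreeGroup (Sum.Gen T T') →* Grp T T' n P :=
  baseHom (base T T' n) P (bb T T') (ww T T')

theorem bh_eq {a b : FreeGroup (Sum.Gen T T')} (h : a * b⁻¹ ∈ base T T' n) :
    bh n P a = bh n P b := by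
  have := baseHom_rel (P := P) (U := bb T T') (V := ww T T') h
  rwa [map_mul, map_inv, mul_inv_eq_one] at this

theorem west_one : bh n P (Sum.w' T T' T'.west) = 1 :=
  baseHom_rel (Or.inr (Or.inr (Or.inr (Or.inr (Or.inr (Or.inl rfl))))))

theorem north_one : bh n P (Sum.b' T T' T'.north) = 1 :=
  baseHom_rel (Or.inr (Or.inr (Or.inr (Or.inr (Or.inr (Or.inr rfl))))))

theorem west_eq (i : Fin (k + 1)) :
    bh n P (Sum.w T T' i (T i).west) = bh n P (Sum.w' T T' T'.west) :=
  bh_eq (Or.inl ⟨i, rfl⟩)

theorem east_eq (i : Fin (k + 1)) :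
    bh n P (Sum.w T T' i (T i).east) = bh n P (Sum.w' T T' T'.east) :=
  bh_eq (Or.inr (Or.inl ⟨i, rfl⟩))

theorem north_eq : bh n P (Sum.b T T' 0 (T 0).north) = bh n P (Sum.b' T T' T'.north) :=
  bh_eq (Or.inr (Or.inr (Or.inl rfl)))

theorem stack_eq (i : Fin k) : bh n P (Sum.b T T' i.castSucc (T i.castSucc).south) =
    bh n P (Sum.b T T' i.succ (T i.succ).north) :=
  bh_eq (Or.inr (Or.inr (Or.inr (Or.inl ⟨i, rfl⟩))))

theorem south_eq : bh n P (Sum.b T T' (Fin.last k) (T (Fin.last k)).south) *
    ((bh n P (Sum.w' T T' T'.west))⁻¹ * bh n P (Sum.w' T T' T'.east)) ^ n =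
    bh n P (Sum.b' T T' T'.south) := by
  rw [← map_inv, ← map_mul, ← map_pow, ← map_mul]
  exact bh_eq (Or.inr (Or.inr (Or.inr (Or.inr (Or.inl rfl)))))

variable {X : Type} [LinearOrder X] (φ : Grp T T' n P →* Aut X)

theorem same (hP : ∀ c, Good (P c).u (P c).v) (c : Cr T T') :
    Same (φ (bh n P (bb T T' c))) (φ (bh n P (ww T T' c))) := by
  have := same_of (hP c) (φ.comp (pieceHom (base T T' n) P (bb T T') (ww T T') c))
  rw [MonoidHom.comp_apply, MonoidHom.comp_apply, pieceHom_u, pieceHom_v] at this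
  exact this

theorem flat {c : Cr T T'} (hc : Flat (P c)) :
    Dom (φ (bh n P (ww T T' c))) (φ (bh n P (bb T T' c))) := by
  have := dom_of hc (φ.comp (pieceHom (base T T' n) P (bb T T') (ww T T') c))
  rw [MonoidHom.comp_apply, MonoidHom.comp_apply, pieceHom_u, pieceHom_v] at this
  exact this

theorem steep {c : Cr T T'} (hc : Steep (P c)) :
    Dom (φ (bh n P (bb T T' c))) (φ (bh n P (ww T T' c))) := by
  have := dom_of hc (φ.comp (pieceHom (base T T' n) P (bb T T') (ww T T') c))
  rw [MonoidHom.comp_apply, MonoidHom.comp_apply, pieceHom_u, pieceHom_v] at this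
  exact this

theorem sameT (hP : ∀ c, Good (P c).u (P c).v) (i : Fin (k + 1)) :
    SameT (T i) (fun v => φ (bh n P (Sum.w T T' i v))) (fun v => φ (bh n P (Sum.b T T' i v))) := by
  intro c
  have := same φ hP (.inl ⟨i, c⟩)
  simp only [bb, ww, map_mul, map_inv] at this
  exact this

theorem sameT' (hP : ∀ c, Good (P c).u (P c).v) :
    SameT T' (fun v => φ (bh n P (Sum.w' T T' v))) (fun v => φ (bh n P (Sum.b' T T' v))) := by
  intro c
  have := same φ hP (.inr c)
  simp only [bb, ww, map_mul, map_inv] at this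
  exact this

theorem fix_all (hP : ∀ c, Good (P c).u (P c).v) (x : X)
    (hx : φ (bh n P (Sum.w' T T' T'.east)) x = x) (γ : Grp T T' n P) : φ γ x = x := by
  have e3 : φ (bh n P (Sum.w' T T' T'.west)) x = x := by rw [west_one, map_one, Aut.one_apply]
  have e5 : φ (bh n P (Sum.b' T T' T'.north)) x = x := by rw [north_one, map_one, Aut.one_apply]
  obtain ⟨h3, h4⟩ := Tan.fix (sameT' φ hP) (x := x) (e3.trans hx.symm)
  have e1 : ∀ i, φ (bh n P (Sum.w T T' i (T i).west)) x = x := fun i => by rw [west_eq]; exact e3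
  have e2 : ∀ i, φ (bh n P (Sum.w T T' i (T i).east)) x = x := fun i => by rw [east_eq]; exact hx
  have hh : ∀ i, (∀ v, φ (bh n P (Sum.w T T' i v)) x = φ (bh n P (Sum.w T T' i (T i).west)) x) ∧
      ∀ v, φ (bh n P (Sum.b T T' i v)) x = φ (bh n P (Sum.b T T' i (T i).north)) x := fun i =>
    Tan.fix (sameT φ hP i) (x := x) ((e1 i).trans (e2 i).symm)
  have e6 : ∀ i, φ (bh n P (Sum.b T T' i (T i).north)) x = x := by
    intro i
    induction i using Fin.induction with
    | zero => rw [north_eq]; exact e5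
    | succ i ih => rw [← stack_eq, (hh i.castSucc).2, ih]
  refine glue_fix hP φ (x := x) ?_ γ
  rintro (⟨i, (v | v)⟩ | (v | v))
  · exact ((hh i).1 v).trans (e1 i)
  · exact ((hh i).2 v).trans (e6 i)
  · exact (h3 v).trans e3
  · exact (h4 v).trans e5

end actions

/-- If the inequalities have no solution then the group is not left-orderable. -/
theorem not_leftOrderable {k : ℕ} {T : Fin (k + 1) → Tangle} {T' : Tangle} {n : ℕ}
    {P : Cr T T' → Piece} (hP : ∀ c, Good (P c).u (P c).v)
    (hno : ∀ (X : Type) [LinearOrder X] [Nonempty X] (g S : Aut X) (A : Fin (k + 1) → Aut X),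
      ¬ Data T T' n (fun i c => P (.inl ⟨i, c⟩)) (fun c => P (.inr c)) g S A) :
    (∀ (H : Type) [Group H], LeftOrderable H → ∀ (f : Grp T T' n P →* H) (γ : Grp T T' n P),
      f γ = 1) ∧ ¬ LeftOrderable (Grp T T' n P) := by
  have key : ∀ (H : Type) [Group H], LeftOrderable H → ∀ (f : Grp T T' n P →* H)
      (γ : Grp T T' n P), f γ = 1 := by
    intro H _ hH f γ
    refine hom_trivial (bh n P (Sum.w' T T' T'.east)) (fun X _ φ x hx γ => fix_all φ hP x hx γ)
      (fun X _ _ φ hpos => ?_) H hH f γ
    obtain ⟨g, S, A, hd⟩ := data (n := n) (Pi := fun i c => P (.inl ⟨i, c⟩))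
      (P' := fun c => P (.inr c)) (fun i => sameT φ hP i) (sameT' φ hP)
      (fun i c hc => by
        have := flat (n := n) φ (c := .inl ⟨i, c⟩) hc
        simp only [bb, ww, map_mul, map_inv] at this
        exact this)
      (fun c hc => by
        have := steep (n := n) φ (c := .inr c) hc
        simp only [bb, ww, map_mul, map_inv] at this
        exact this)
      (by rw [west_one, map_one]) (by rw [north_one, map_one])
      (fun i => by rw [west_eq]) (fun i => by rw [east_eq]) (by rw [north_eq])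
      (fun i => by rw [stack_eq])
      (by rw [← south_eq]; simp only [map_mul, map_inv, map_pow]) hpos
    exact hno X g S A hd
  refine ⟨key, fun hG => ?_⟩
  obtain ⟨x, y, hxy⟩ := hG.1
  have h1 := key _ hG (MonoidHom.id _) x
  have h2 := key _ hG (MonoidHom.id _) y
  simp only [MonoidHom.id_apply] at h1 h2
  exact hxy (by rw [h1, h2])

section algebra
variable {P : Type*} [Group P] [PartialOrder P] [MulLeftMono P] [MulRightMono P]

/-- From the certificate of `(M - 1) / M` for `a₀` and `a₀ x ≤ g`: `x ^ M ≤ g`. -/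
theorem pow_le_of_first {a₀ x g : P} {r : ℕ} (h : a₀ * x ≤ g)
    (hc : ((a₀ ^ 1)⁻¹ * g) ^ (r + 1) ≤ a₀) : x ^ (r + 2) ≤ g := by
  have h1 : x ≤ (a₀ ^ 1)⁻¹ * g := by
    rw [pow_one, le_inv_mul_iff_mul_le]; exact h
  rw [pow_succ]
  exact (mul_le_mul_left ((pow_le_pow_of_le h1 _).trans hc) _).trans h

theorem pow_le_of_last {a₀ x g : P} {r : ℕ} (h : x * a₀ ≤ g)
    (hc : ((a₀ ^ 1)⁻¹ * g) ^ (r + 1) ≤ a₀) : x ^ (r + 2) ≤ g := by
  have hc' : (g * a₀⁻¹) ^ (r + 1) ≤ a₀ := by
    have := mul_le_mul_left (mul_le_mul_right hc a₀) a₀⁻¹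
    rw [pow_conj, pow_one, mul_inv_cancel_right, mul_inv_cancel_left] at this
    exact this
  have h1 : x ≤ g * a₀⁻¹ := le_mul_inv_iff_mul_le.mpr h
  rw [pow_succ']
  exact (mul_le_mul_right ((pow_le_pow_of_le h1 _).trans hc') _).trans h

end algebra

/-- The hypotheses on the tangles and the pieces. -/
structure Allowed {k : ℕ} (T : Fin (k + 1) → Tangle) (T' : Tangle) (n : ℕ) (P : Cr T T' → Piece) :
    Prop where
  good : ∀ c, Good (P c).u (P c).v
  triple : ∃ (r s : ℕ) (i j l : Fin (k + 1)), j ≠ l ∧ ((i < j ∧ i < l) ∨ (j < i ∧ l < i)) ∧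
    Contains (T i) (fun c => P (.inl ⟨i, c⟩)) 1 (r + 1) ∧
    Contains (T j) (fun c => P (.inl ⟨j, c⟩)) (r + 2) (s + 1) ∧
    Contains (T l) (fun c => P (.inl ⟨l, c⟩)) ((s + 2) * (r + 2)) 1
  walk : WalkIn (fun c => Steep (P (.inr c))) T'.b₁ T'.b₂ (n + 1) T'.north T'.south

/-- **Toroidal manifolds from sums of tangles of opposite sign.** -/
theorem result :
    (∀ (k n : ℕ) (T : Fin (k + 1) → Tangle) (T' : Tangle) (P : Cr T T' → Piece),
      Allowed T T' n P →
      (∀ (H : Type) [Group H], LeftOrderable H → ∀ (f : Grp T T' n P →* H) (γ : Grp T T' n P),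
        f γ = 1) ∧ ¬ LeftOrderable (Grp T T' n P)) ∧
    (∀ F : Filling, F.Positive → Good F.piece.u F.piece.v ∧ (F.IsFlat → Flat F.piece) ∧
      (F.IsSteep → Steep F.piece)) := by
  refine ⟨fun k n T T' P hP => ?_, fun F hF => ⟨hF.good, hF.flat, hF.steep⟩⟩
  obtain ⟨r, s, i, j, l, hjl, hi, h1, h2, h3⟩ := hP.triple
  refine not_leftOrderable hP.good fun X _ _ g S A D => ?_
  have hS : S ≤ g := by
    have := D.walk (n + 1) hP.walk
    rw [pow_succ'] at this
    exact le_of_mul_le_mul_right' this
  have c1 := D.rat i 1 (r + 1) h1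
  have c2 := D.rat j (r + 2) (s + 1) h2
  have c3 : g ≤ A l ^ ((s + 2) * (r + 2) + 1) := by
    have := D.rat l _ 1 h3
    rw [pow_one, inv_mul_le_iff_le_mul, ← pow_succ] at this
    exact this
  have hg : (A j * A l) ^ (r + 2) ≤ g ∨ (A l * A j) ^ (r + 2) ≤ g := by
    rcases hi with ⟨h4, h5⟩ | ⟨h4, h5⟩
    · rcases lt_or_gt_of_ne hjl with h6 | h6
      · left
        refine pow_le_of_first ?_ c1
        rw [← mul_assoc]
        exact (D.triple i j l h4 h6).trans hS
      · right
        refine pow_le_of_first ?_ c1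
        rw [← mul_assoc]
        exact (D.triple i l j h5 h6).trans hS
    · rcases lt_or_gt_of_ne hjl with h6 | h6
      · left
        exact pow_le_of_last ((D.triple j l i h6 h5).trans hS) c1
      · right
        exact pow_le_of_last ((D.triple l j i h6 h4).trans hS) c1
  exact farey (D.cur l) hg c2 c3

end Pool.Agent.Results.MP_3d425c_gt.TangleSumsWithPieces
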