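import Pool.Agent.Q138.LO.Strip

set_option autoImplicit false

/-!
# Punctured torus bundles and double covers of encircled alternating links, glued to other pieces

Let `L` be a link with an alternating diagram on the sphere `S`, and `A` an unknotted circle that meets
`S` in two points, in a white and in a black region, which are joined by an arc in `S` crossing three
strands of `L`. Let `Y` be the double cover of the exterior of `A`, branched along `L`, whose covering
involution is nontrivial over the meridian of `A`. The boundary torus of `Y` has the basis `t, t₁`, the
lifts of `meridian * μ⁻¹` and `meridian * μ`, where `μ` is the longitude of `A`. If `L` is a closed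
3-braid with axis `A` then `Y` is a once-punctured torus bundle with monodromy of negative trace; all
hyperbolic once-punctured torus bundles of negative trace are obtained, and the fillings of `Y` in the
closed interval of slopes between `t` and `t₁` that contains `t * t₁` are L-spaces.

The closed manifolds of this file are obtained by gluing to the boundary torus of `Y` not only solid
tori but also the twisted interval bundle over the Klein bottle, a Seifert fibred space over the disc
with at least two exceptional fibres (for instance the exterior of a torus knot), or any piece in whose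
fundamental group no order moves a point in the same direction by `t` and by `t₁`. Moreover `Y` may be
changed by replacing crossings of `L` by pieces of the same types. So the manifolds are toroidal; if
`Y` is a hyperbolic once-punctured torus bundle and nothing is changed at the crossings then the
JSJ pieces are `Y` and the piece at the boundary.

The theorem: the fundamental group has no nontrivial homomorphism to a left-orderable group. In the
starting files (`EncircledAlternatingLinks` for MP_9ae2f3_gt) this is proved for solid tori.

The presentation. Cut the diagram along the arc. This gives a diagram in a strip: along the left side,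
from top to bottom, we see the regions `top` (white), `bL` (black), `wL` (white), `bot` (black), along
the right side `top`, `bR`, `wR`, `bot`. Generators for the regions (`top` and `bot` are `1`), and the
stable letter `m` which conjugates the free generators `x, y` of the group of the punctured torus over
the left side of the strip to the inverses of those over the right side. At a crossing with corners
`w₁, b₁, w₂, b₂` in counterclockwise order, where the overpass separates `w₁, b₁` from `w₂, b₂`, the
basis `u = b₂⁻¹ b₁`, `v = w₁⁻¹ w₂` of the boundary torus is identified with the elements `P.u`, `P.v`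
of the piece; the basis `t`, `t₁` of the boundary torus over `A` with `P₀.u`, `P₀.v`.

`Piece`, `Good` are defined in `Pool.Agent.Q138.LO.Piece`, `GlueGroup`, `Filling`, `Filling.piece`,
`Filling.Positive` in `Pool.Agent.Q138.LO.Glue`, `Anti`, `Colour`, `Strip` in
`Pool.Agent.Q138.LO.Strip`, `LeftOrderable` in `Pool.Agent.Y479.LS.Aut`.
-/

namespace Pool.Agent.Results.MP_3d425c_gt.ToroidalPuncturedTorusBundles

open Pool.Agent.Q138.LO Pool.Agent.Y479.LS

section

variable (D : Strip)

/-- Generators of the base: the regions and the stable letter. -/
abbrev Gen : Type := D.W ⊕ D.B ⊕ Unit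

/-- the generator of a white region -/
def w (v : D.W) : FreeGroup (Gen D) := FreeGroup.of (Sum.inl v)

/-- the generator of a black region -/
def b (v : D.B) : FreeGroup (Gen D) := FreeGroup.of (Sum.inr (Sum.inl v))

/-- the stable letter -/
def m : FreeGroup (Gen D) := FreeGroup.of (Sum.inr (Sum.inr ()))

def xL : FreeGroup (Gen D) := (w D D.top)⁻¹ * w D D.wL
def yL : FreeGroup (Gen D) := (b D D.bL)⁻¹ * b D D.bot
def xR : FreeGroup (Gen D) := (w D D.top)⁻¹ * w D D.wR
def yR : FreeGroup (Gen D) := (b D D.bR)⁻¹ * b D D.bot

/-- The first basis elements: `t` at the torus over the circle `A` (`none`), and `b₂⁻¹ b₁` at the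
crossing `c` (`some c`). -/
def U : Option D.C → FreeGroup (Gen D)
  | none => (yR D)⁻¹ * xR D * m D
  | some c => (b D (D.b₂ c))⁻¹ * b D (D.b₁ c)

/-- The second basis elements: `t₁` at the torus over `A`, and `w₁⁻¹ w₂` at the crossing `c`. -/
def V : Option D.C → FreeGroup (Gen D)
  | none => xR D * (yR D)⁻¹ * m D
  | some c => (w D (D.w₁ c))⁻¹ * w D (D.w₂ c)

/-- The relators of the base. -/
def baseRel : Set (FreeGroup (Gen D)) :=
  {w D D.top, b D D.bot, m D * xL D * (m D)⁻¹ * xR D, m D * yL D * (m D)⁻¹ * yR D}

/-- The fundamental group of the closed manifold: the piece `P none` is glued to the torus over the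
circle `A`, the piece `P (some c)` to the torus of the crossing `c`. -/
abbrev Grp (P : Option D.C → Piece) : Type := GlueGroup (baseRel D) P (U D) (V D)

end

/-- The pieces that may be glued in at a crossing: positive solid tori, twisted interval bundles over
the Klein bottle, Seifert fibred spaces over the disc, and all other good pieces. -/
def CrossingPiece (P : Piece) : Prop :=
  (∃ F : Filling, F.Positive ∧ P = F.piece) ∨ Good P.u P.v

/-- The pieces that may be glued to the torus over `A`: the solid torus in which
`t ^ a * t₁ ^ b = 1`; positive twisted interval bundles over the Klein bottle and Seifert fibred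
spaces over the disc with respect to `t, t₁⁻¹`; and all other pieces in which `t` and `t₁` never move
a point in the same direction. -/
def CuspPiece (P : Piece) : Prop :=
  (∃ a b : ℕ, (a, b) ≠ (0, 0) ∧
    P = ⟨Multiplicative ℤ, Multiplicative.ofAdd (b : ℤ), Multiplicative.ofAdd (-(a : ℤ))⟩) ∨
  (∃ F : Filling, F.Positive ∧ P = ⟨F.piece.K, F.piece.u, F.piece.v⁻¹⟩) ∨ Anti P.u P.v

theorem CrossingPiece.good {P : Piece} (h : CrossingPiece P) : Good P.u P.v := by
  rcases h with ⟨F, hF, h⟩ | h
  · rw [h]; exact hF.good
  · exact h

theorem CuspPiece.anti {P : Piece} (h : CuspPiece P) : Anti P.u P.v := by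
  rcases h with ⟨a, b, hab, h⟩ | ⟨F, hF, h⟩ | h
  · rw [h]; exact solid_anti hab
  · rw [h]; exact hF.good.anti
  · exact h

/-- **Toroidal fillings of punctured torus bundles and of double covers of encircled alternating
links.** -/
theorem result (D : Strip) (P : Option D.C → Piece) (h₀ : CuspPiece (P none))
    (h : ∀ c, CrossingPiece (P (some c))) :
    (∀ (H : Type) [Group H], LeftOrderable H → ∀ (f : Grp D P →* H) g, f g = 1) ∧
      ¬ LeftOrderable (Grp D P) := by
  refine glue_trivial
    (fun c X _ f g => match c with
      | none => ∀ x : X, ¬ (x < f x ∧ x < g x) ∧ ¬ (f x < x ∧ g x < x)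
      | some _ => ∀ x : X, (f x ≤ x ↔ g x ≤ x) ∧ (x ≤ f x ↔ x ≤ g x)) ?_ ?_ ?_
  · rintro (_ | c) X _ φ x
    · exact ⟨(h₀.anti X φ x).1, (h₀.anti X φ x).2.1⟩
    · exact ⟨((h c).good X φ x).1, ((h c).good X φ x).2.1⟩
  · rintro (_ | c) X _ φ x h1 h2
    · exact (h₀.anti X φ x).2.2 h1 h2
    · exact ((h c).good X φ x).2.2 h1
  · intro X _ β h1 h2
    have hw : β (w D D.top) = 1 := h1 _ (by simp [baseRel])
    have hb : β (b D D.bot) = 1 := h1 _ (by simp [baseRel])
    have hx := h1 _ (show m D * xL D * (m D)⁻¹ * xR D ∈ baseRel D by simp [baseRel])
    have hy := h1 _ (show m D * yL D * (m D)⁻¹ * yR D ∈ baseRel D by simp [baseRel])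
    have hs := sys_of_strip (taut X) D (fun v => β (w D v)) (fun v => β (b D v)) (β (m D))
      (fun c r => ?_) ?_ ?_ (fun r => ?_) (fun r => ?_)
    · intro x γ
      obtain ⟨k1, k2, k3⟩ := hs x
      rcases γ with v | v | ⟨⟩
      · have := k2 v
        simp only [hw] at this
        exact this
      · have := k3 v
        simp only [hb] at this
        exact this
      · exact k1
    · have := h2 (some c) r
      simp only [U, V, map_mul, map_inv] at this
      exact this
    · simpa only [xL, xR, map_mul, map_inv] using hx
    · simpa only [yL, yR, map_mul, map_inv] using hy
    · have := (h2 none r).1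
      simp only [U, V, xR, yR, map_mul, map_inv] at this
      exact this
    · have := (h2 none r).2
      simp only [U, V, xR, yR, map_mul, map_inv] at this
      exact this

end Pool.Agent.Results.MP_3d425c_gt.ToroidalPuncturedTorusBundles
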